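import Pool.Agent.Helper89.CRW17

/-!
# Monotonicity of strong transience of the conservative random walk holds exactly when `d ≠ 2`

The definitions (`Dir`, `vec`, `unif`, `driving`, `step`, `pos`, `enorm2`, `StronglyTransient`)
are in `Pool/Agent/Helper89/CRWDefs.lean`.
-/

set_option autoImplicit false

namespace Pool.Agent.Results.MP_4881ff_pr.AllDimensions

open Pool.Agent.H89CRW

/-- For every dimension `d ≥ 1`: strong transience of the conservative random walk passes to every
pointwise smaller sequence of resampling probabilities if and only if `d ≠ 2`. -/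
theorem result (d : ℕ) [NeZero d] :
    (∀ p p' : ℕ → ℝ, (∀ n, 0 ≤ p n ∧ p n ≤ 1) → (∀ n, 0 ≤ p' n ∧ p' n ≤ 1) →
      (∀ n, 1 ≤ n → p' n ≤ p n) → StronglyTransient d p → StronglyTransient d p') ↔ d ≠ 2 := by
  constructor
  · rintro h rfl
    obtain ⟨p, p', hp, hp', hle, h1, h2⟩ := not_monotone_two
    exact h2 (h p p' hp hp' (fun n _ => hle n) h1)
  · intro hd p p' hp hp' hle h
    exact monotone_of_ne_two d hd p p' hp hp' hle h

end Pool.Agent.Results.MP_4881ff_pr.AllDimensions
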